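import Pool.Agent.H31.SW.TargetsG
import Pool.Agent.H29.DW.Tools

/-!
# Board swl_modules, module CL: lower bound for the number of the lattice points in a box
-/

set_option autoImplicit false

open NumberField NumberField.InfinitePlace NumberField.Units
  NumberField.Units.dirichletUnitTheorem MeasureTheory Set Filter Complex
open NumberField.mixedEmbedding
open scoped nonZeroDivisors ENNReal NNReal

namespace Pool.Agent.H54.SWL

open Pool.Agent.H25.HK Pool.Agent.H23.LB Pool.Agent.H23.LC
open Pool.Agent.H28.RC (Rep ft idl)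
open Pool.Agent.H29.DW (dg Rl lf wv Pos Wg cpar Ci om zs rv norm_wv)
open Pool.Agent.H31.SW

/-- unfolding of an integral -/
private theorem unfold_int {E : Type*} [NormedAddCommGroup E] [NormedSpace ℝ E]
    [MeasurableSpace E] [BorelSpace E] [FiniteDimensional ℝ E] (μ : Measure E)
    [μ.IsAddHaarMeasure] {κ : Type*} [Finite κ] (b : Module.Basis κ ℝ E) (g : E → ℝ≥0∞)
    (hg : Measurable g) :
    ∫⁻ z in ZSpan.fundamentalDomain b, ∑' l : Submodule.span ℤ (Set.range b), g (z + l) ∂μ =
      ∫⁻ z, g z ∂μ := by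
  have hd : IsAddFundamentalDomain (Submodule.span ℤ (Set.range b))
      (ZSpan.fundamentalDomain b) μ := ZSpan.isAddFundamentalDomain b μ
  have : Countable (Submodule.span ℤ (Set.range b)) := inferInstance
  have : VAddInvariantMeasure (Submodule.span ℤ (Set.range b)) E μ :=
    inferInstanceAs (VAddInvariantMeasure (Submodule.span ℤ (Set.range b)).toAddSubgroup E μ)
  have hml : ∀ l : Submodule.span ℤ (Set.range b),
      AEMeasurable (fun z => g (z + l)) (μ.restrict (ZSpan.fundamentalDomain b)) :=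
    fun l => Measurable.aemeasurable (hg.comp (measurable_add_const (l : E)))
  rw [lintegral_tsum hml]
  rw [hd.lintegral_eq_tsum'' g]
  refine tsum_congr fun l => ?_
  refine lintegral_congr fun z => ?_
  rw [Submodule.vadd_def, vadd_eq_add, add_comm]

section

variable {K : Type} [Field K] [NumberField K]

private theorem norm_lt (f : InfinitePlace K → ℝ≥0) {z : mixedSpace K}
    (hz : z ∈ convexBodyLT K f) (v : InfinitePlace K) : normAtPlace v z < f v := by
  by_cases hv : v.IsReal
  · rw [normAtPlace_apply_of_isReal hv]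
    have := hz.1 ⟨v, hv⟩ (Set.mem_univ _)
    simpa using this
  · rw [not_isReal_iff_isComplex] at hv
    rw [normAtPlace_apply_of_isComplex hv]
    have := hz.2 ⟨v, hv⟩ (Set.mem_univ _)
    simpa using this

open scoped Classical in
/-- the pigeonhole principle -/
theorem count (L : FI K) (hL : L ≠ 0) (f : InfinitePlace K → ℝ≥0)
    (hfin : {x : K | x ∈ L ∧ ∀ v : InfinitePlace K, v x ≤ 2 * f v}.Finite) :
    ∏ v : InfinitePlace K, (f v : ℝ) ^ v.mult ≤
      ({x : K | x ∈ L ∧ ∀ v : InfinitePlace K, v x ≤ 2 * f v}.ncard : ℝ) *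
        ((FractionalIdeal.absNorm L : ℝ) * Real.sqrt |(discr K : ℝ)|) := by
  set S : Set K := {x : K | x ∈ L ∧ ∀ v : InfinitePlace K, v x ≤ 2 * f v} with hS
  set I : (FractionalIdeal (𝓞 K)⁰ K)ˣ := Units.mk0 L hL with hI
  set b := fractionalIdealLatticeBasis K I with hb
  have hBm : MeasurableSet (convexBodyLT K f) := by
    refine MeasurableSet.prod ?_ ?_
    · exact MeasurableSet.univ_pi fun w => measurableSet_ball
    · exact MeasurableSet.univ_pi fun w => measurableSet_ball
  have h1 := unfold_int (volume : Measure (mixedSpace K)) b ((convexBodyLT K f).indicator 1)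
    (measurable_one.indicator hBm)
  rw [lintegral_indicator_one hBm] at h1
  have hmem : ∀ l : Submodule.span ℤ (Set.range b), ∃ x : K, x ∈ L ∧
      mixedEmbedding K x = (l : mixedSpace K) := by
    intro l
    obtain ⟨x, hx, hx'⟩ := (mem_span_fractionalIdealLatticeBasis K I).mp l.2
    exact ⟨x, hx, hx'⟩
  choose x hxL hx using hmem
  have h2 : ∀ z : mixedSpace K, ∑' l : Submodule.span ℤ (Set.range b),
      (convexBodyLT K f).indicator 1 (z + (l : mixedSpace K)) ≤ (S.ncard : ℝ≥0∞) := by
    intro z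
    rw [ENNReal.tsum_eq_iSup_sum]
    refine iSup_le fun s => ?_
    set Q : Finset (Submodule.span ℤ (Set.range b)) :=
      s.filter (fun l : Submodule.span ℤ (Set.range b) =>
        z + (l : mixedSpace K) ∈ convexBodyLT K f) with hQ
    have h3 : ∑ l ∈ s, (convexBodyLT K f).indicator (1 : mixedSpace K → ℝ≥0∞)
        (z + (l : mixedSpace K)) = (Q.card : ℝ≥0∞) := by
      rw [hQ, Finset.card_filter]
      push_cast
      refine Finset.sum_congr rfl fun l _ => ?_
      rw [Set.indicator_apply]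
      simp
    rw [h3]
    rcases Q.eq_empty_or_nonempty with hQe | ⟨l₀, hl₀⟩
    · rw [hQe]
      simp
    have h4 : Q.card ≤ S.ncard := by
      rw [← Set.ncard_coe_finset]
      refine Set.ncard_le_ncard_of_injOn (fun l => x l - x l₀) ?_ ?_ hfin
      · intro l hl
        refine ⟨L.1.sub_mem (hxL l) (hxL l₀), fun v => ?_⟩
        have e1 := norm_lt f (Finset.mem_filter.mp (Finset.mem_coe.mp hl)).2 v
        have e2 := norm_lt f (Finset.mem_filter.mp hl₀).2 v
        have e3 : mixedEmbedding K (x l - x l₀) = (z + (l : mixedSpace K)) +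
            -(z + (l₀ : mixedSpace K)) := by
          rw [map_sub, hx, hx]
          abel
        rw [← normAtPlace_apply, e3]
        refine (normAtPlace_add_le v _ _).trans ?_
        rw [normAtPlace_neg]
        linarith
      · intro l _ l' _ hll
        have e4 : x l = x l' := sub_left_injective hll
        apply Subtype.ext
        rw [← hx l, ← hx l', e4]
    exact_mod_cast h4
  have h5 : volume (convexBodyLT K f) ≤ (S.ncard : ℝ≥0∞) *
      volume (ZSpan.fundamentalDomain b) := by
    rw [← h1]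
    calc _ ≤ ∫⁻ _ in ZSpan.fundamentalDomain b, (S.ncard : ℝ≥0∞) := lintegral_mono fun z => h2 z
      _ = _ := by rw [setLIntegral_const]
  rw [convexBodyLT_volume, volume_fundamentalDomain_fractionalIdealLatticeBasis,
    volume_fundamentalDomain_latticeBasis] at h5
  have h6 : ((∏ w, (f w) ^ (mult w) : ℝ≥0) : ℝ≥0∞) ≤
      (S.ncard : ℝ≥0∞) * (.ofReal (FractionalIdeal.absNorm L) *
        (NNReal.sqrt ‖discr K‖₊ : ℝ≥0∞)) := by
    calc ((∏ w, (f w) ^ (mult w) : ℝ≥0) : ℝ≥0∞)
        = 1 * ((∏ w, (f w) ^ (mult w) : ℝ≥0) : ℝ≥0∞) := (one_mul _).symm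
      _ ≤ (convexBodyLTFactor K) * ((∏ w, (f w) ^ (mult w) : ℝ≥0) : ℝ≥0∞) :=
          mul_le_mul' (by exact_mod_cast one_le_convexBodyLTFactor K) le_rfl
      _ ≤ (S.ncard : ℝ≥0∞) * (.ofReal (FractionalIdeal.absNorm L) *
            ((2 : ℝ≥0∞)⁻¹ ^ nrComplexPlaces K * (NNReal.sqrt ‖discr K‖₊ : ℝ≥0∞))) := h5
      _ ≤ _ := by
          refine mul_le_mul' le_rfl (mul_le_mul' le_rfl ?_)
          calc _ ≤ 1 * (NNReal.sqrt ‖discr K‖₊ : ℝ≥0∞) := by
                refine mul_le_mul' (pow_le_one₀ (by simp) ?_) le_rfl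
                exact ENNReal.inv_le_one.2 (by norm_num)
            _ = _ := one_mul _
  have h7 := ENNReal.toReal_mono ?_ h6
  · rw [ENNReal.coe_toReal, ENNReal.toReal_mul, ENNReal.toReal_mul, ENNReal.toReal_natCast,
      ENNReal.coe_toReal, ENNReal.toReal_ofReal (by exact_mod_cast FractionalIdeal.absNorm_nonneg L),
      Real.coe_sqrt, coe_nnnorm, Int.norm_eq_abs] at h7
    push_cast at h7
    exact h7
  · exact ENNReal.mul_ne_top (ENNReal.natCast_ne_top _)
      (ENNReal.mul_ne_top ENNReal.ofReal_ne_top ENNReal.coe_ne_top)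

end

theorem pf_CL (hCU : W_CU) : W_CL := by
  intro n hn
  obtain ⟨C, hC, hfin⟩ := hCU n hn
  refine ⟨(1 / 2) ^ n, by positivity, fun K _ _ hK L y ω R hL hω hR => ?_⟩
  set f : InfinitePlace K → ℝ≥0 := fun v =>
    ⟨R v * Real.exp (-(y v / 2)) / 2, by have := hR v; positivity⟩ with hf
  have hfc : ∀ v, (f v : ℝ) = R v * Real.exp (-(y v / 2)) / 2 := fun v => rfl
  have hset : {x : K | x ∈ L ∧ ∀ v, ‖wv v x y ω‖ ≤ R v} =
      {x : K | x ∈ L ∧ ∀ v : InfinitePlace K, v x ≤ 2 * f v} := by
    ext x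
    simp only [Set.mem_ofPred_eq, norm_wv _ _ _ hω, hfc]
    refine and_congr_right fun _ => forall_congr' fun v => ?_
    rw [← le_div_iff₀ (Real.exp_pos _), Real.exp_neg]
    constructor
    · intro h
      refine h.trans (le_of_eq ?_)
      field_simp
    · intro h
      refine h.trans (le_of_eq ?_)
      field_simp
  have hfin' := (hfin K hK L y ω 0 R hL hω fun v => (hR v).le).1
  simp only [Pi.zero_apply, sub_zero] at hfin'
  rw [hset] at hfin' ⊢
  have h1 := count L hL f hfin'
  have hd : 0 < Real.sqrt (dK K) := Real.sqrt_pos.mpr (by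
    rw [dK]
    exact abs_pos.mpr (by exact_mod_cast discr_ne_zero K))
  have hN : 0 < (FractionalIdeal.absNorm L : ℝ) := by
    have h2 : FractionalIdeal.absNorm L ≠ 0 := by
      rw [Ne, FractionalIdeal.absNorm_eq_zero_iff]
      exact hL
    have h3 : 0 ≤ FractionalIdeal.absNorm L := FractionalIdeal.absNorm_nonneg L
    exact_mod_cast lt_of_le_of_ne h3 (Ne.symm h2)
  have hprod : ∏ v : InfinitePlace K, (f v : ℝ) ^ v.mult =
      (1 / 2) ^ n * PP R * Real.exp (-(∑ v : InfinitePlace K, (v.mult : ℝ) * y v) / 2) := by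
    rw [← hK, ← sum_mult_eq, ← Finset.prod_pow_eq_pow_sum, PP, ← Finset.sum_neg_distrib,
      Finset.sum_div, Real.exp_sum, ← Finset.prod_mul_distrib, ← Finset.prod_mul_distrib]
    refine Finset.prod_congr rfl fun v _ => ?_
    have e1 : Real.exp (-((v.mult : ℝ) * y v) / 2) = Real.exp (-(y v / 2)) ^ v.mult := by
      rw [← Real.exp_nat_mul]
      congr 1
      ring
    rw [hfc, e1, ← mul_pow, ← mul_pow]
    congr 1
    ring
  rw [hprod] at h1
  rw [div_le_iff₀ hd, DD]
  have e2 : (1 / 2 : ℝ) ^ n * (Real.exp (-(∑ v : InfinitePlace K, (v.mult : ℝ) * y v) / 2) /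
      (FractionalIdeal.absNorm L : ℝ) * PP R) = (1 / 2) ^ n * PP R *
        Real.exp (-(∑ v : InfinitePlace K, (v.mult : ℝ) * y v) / 2) /
        (FractionalIdeal.absNorm L : ℝ) := by
    ring
  rw [e2, div_le_iff₀ hN]
  refine h1.trans (le_of_eq ?_)
  rw [dK]
  ring

end Pool.Agent.H54.SWL
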