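import Pool.Agent.H31.SW.TargetsG

/-!
# Board swl_modules, module NM: the numbers of the first step
-/

set_option autoImplicit false

namespace Pool.Agent.H54.SWL

open Pool.Agent.H31.SW

private theorem exp_rpow (a x : ℝ) : Real.exp a ^ x = Real.exp (a * x) := (Real.exp_mul a x).symm

theorem pf_NM : W_NM := by
  intro A T Φ hT hA hΦ hΦ'
  have hT0 : 0 < T := by linarith
  have hA0 : 0 < A := lt_of_lt_of_le (Real.rpow_pos_of_pos hT0 _) hA
  have hΦ0 : 0 < Φ := lt_of_lt_of_le (div_pos hT0 hA0) hΦ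
  obtain ⟨t, rfl⟩ : ∃ t, T = Real.exp t := ⟨Real.log T, (Real.exp_log hT0).symm⟩
  obtain ⟨a, rfl⟩ : ∃ a, A = Real.exp a := ⟨Real.log A, (Real.exp_log hA0).symm⟩
  obtain ⟨φ, rfl⟩ : ∃ φ, Φ = Real.exp φ := ⟨Real.log Φ, (Real.exp_log hΦ0).symm⟩
  have ht : 0 ≤ t := Real.one_le_exp_iff.mp hT
  rw [exp_rpow, Real.exp_le_exp] at hA
  rw [← Real.exp_sub, Real.exp_le_exp] at hΦ
  rw [exp_rpow, Real.exp_le_exp] at hΦ'
  simp only [exp_rpow, ← Real.exp_add, ← Real.exp_sub]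
  set X : ℝ := Real.exp (a - t * (1 / 2)) with hX
  have hX0 : 0 < X := Real.exp_pos _
  have hX1 : 1 ≤ 1 + X := by linarith
  have e1 : Real.exp ((a - t * (1 / 2)) * (3 / 2)) ≤ (1 + X) ^ (3 / 2 : ℝ) := by
    rw [← exp_rpow, ← hX]
    exact Real.rpow_le_rpow hX0.le (by linarith) (by norm_num)
  have e2 : Real.exp ((a - t * (1 / 2)) * (1 / 6)) ≤ (1 + X) ^ (3 / 2 : ℝ) := by
    rw [← exp_rpow, ← hX]
    exact (Real.rpow_le_rpow hX0.le (by linarith) (by norm_num)).trans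
      (Real.rpow_le_rpow_of_exponent_le hX1 (by norm_num))
  have e3 : 1 ≤ (1 + X) ^ (3 / 2 : ℝ) := Real.one_le_rpow hX1 (by norm_num)
  have key : ∀ u w : ℝ, Real.exp w ≤ (1 + X) ^ (3 / 2 : ℝ) → u ≤ t * (27 / 82) + w →
      Real.exp u ≤ Real.exp (t * (27 / 82)) * (1 + X) ^ (3 / 2 : ℝ) := by
    intro u w h1 h2
    calc Real.exp u ≤ Real.exp (t * (27 / 82)) * Real.exp w := by
          rw [← Real.exp_add, Real.exp_le_exp]; exact h2
      _ ≤ _ := mul_le_mul_of_nonneg_left h1 (Real.exp_pos _).le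
  have f1 := key (a + φ * (-(1 / 2))) _ e1 (by nlinarith)
  have f2 := key (a * (1 / 6) + φ * (11 / 30)) _ e2 (by nlinarith)
  have f3 := key (a * (-(1 / 24)) + φ * (61 / 120)) 0 (by rw [Real.exp_zero]; exact e3)
    (by nlinarith)
  linarith

end Pool.Agent.H54.SWL
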